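import Pool.Agent.Y990.CB.Fat
import Pool.Agent.Y990.SH.Stm2

set_option autoImplicit false

open MeasureTheory Set

/-!
Project SH, statement CRIT: the generic renormalisation criterion.
-/

namespace Pool.Agent.Y587.SH

open Pool.Agent.W783.PC (pm DepOn Inc)
open Pool.Agent.H592F (Wet safe bad far perc_det near)
open Pool.Agent.Y68.CB990 (bp_right bp_up arith arith2)
open Pool.Agent.Y990.CB Pool.Agent.Y990.SH

noncomputable section

variable {d : ℕ}

/-- The block `s` is bad. -/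
def Bg (M : Mod d) (Gs : Z d → Set (M.ι → Bool)) (v v' : Z d) (K : ℕ) (s : ℤ × ℤ) :
    Set (M.ι → Bool) :=
  {ω | ∃ l : ℕ, l ≤ K ∧ (¬ ω ∈ Gs (bp v v' K s + l • v) ∨ ¬ ω ∈ Gs (bp v v' K s + l • v'))}

lemma Bg_dep (M : Mod d) (Gs : Z d → Set (M.ι → Bool)) (v v' : Z d) (w K r r' : ℕ) (s : ℤ × ℤ)
    (hG : ∀ z, DepOn (Gs z) (In M (Bo z r'))) (hv : nm v ≤ w)
    (hv' : nm v' ≤ w) (h3 : K * w + r' ≤ r) :
    DepOn (Bg M Gs v v' K s) (In M (Bo (bp v v' K s) r)) := by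
  intro ω ω' h
  have key : ∀ (u : Z d), nm u ≤ w → ∀ l : ℕ, l ≤ K →
      (ω ∈ Gs (bp v v' K s + l • u) ↔ ω' ∈ Gs (bp v v' K s + l • u)) := by
    intro u hu l hl
    have h4 : bp v v' K s + l • u ∈ Bo (bp v v' K s) (l * w) := mem_Bo_smul hu
    have h5 : l * w ≤ K * w := Nat.mul_le_mul_right _ hl
    exact hG _ ω ω' (fun c hc => h c (In_mono M (Bo_sub h4 (by omega)) hc))
  constructor
  · rintro ⟨l, hl, h4⟩
    refine ⟨l, hl, ?_⟩
    rcases h4 with h4 | h4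
    · exact Or.inl (fun hc => h4 ((key v hv l hl).2 hc))
    · exact Or.inr (fun hc => h4 ((key v' hv' l hl).2 hc))
  · rintro ⟨l, hl, h4⟩
    refine ⟨l, hl, ?_⟩
    rcases h4 with h4 | h4
    · exact Or.inl (fun hc => h4 ((key v hv l hl).1 hc))
    · exact Or.inr (fun hc => h4 ((key v' hv' l hl).1 hc))

lemma Bg_prob (M : Mod d) (p : unitInterval) (Gs : Z d → Set (M.ι → Bool)) (v v' : Z d) (K : ℕ)
    (s : ℤ × ℤ) {q : ℝ} (h : ∀ z, (mu M p).real (Gs z)ᶜ ≤ q) :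
    (mu M p).real (Bg M Gs v v' K s) ≤ 2 * (K + 1) * q := by
  have e : Bg M Gs v v' K s = ⋃ l ∈ Finset.range (K + 1),
      ((Gs (bp v v' K s + l • v))ᶜ ∪ (Gs (bp v v' K s + l • v'))ᶜ) := by
    ext ω
    simp only [Bg, mem_ofPred_eq, mem_union, mem_iUnion, Finset.mem_range, exists_prop,
      Nat.lt_succ_iff, mem_compl_iff]
  rw [e]
  refine (measureReal_biUnion_finset_le _ _).trans ?_
  calc ∑ l ∈ Finset.range (K + 1), (mu M p).real
        ((Gs (bp v v' K s + l • v))ᶜ ∪ (Gs (bp v v' K s + l • v'))ᶜ) ≤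
          ∑ l ∈ Finset.range (K + 1), (q + q) := by
        refine Finset.sum_le_sum fun l _ => ?_
        exact (measureReal_union_le _ _).trans (add_le_add (h _) (h _))
    _ = 2 * (K + 1) * q := by
        rw [Finset.sum_const, Finset.card_range, nsmul_eq_mul]; push_cast; ring

/-- CRIT. -/
theorem crit3 : S_crit := by
  intro d M p i j w R N q H Gs hij hw hR hdep hprob hq h1 h2 h3
  obtain ⟨K, hK⟩ : ∃ K : ℕ, K = 3 * R := ⟨_, rfl⟩
  obtain ⟨r, hr⟩ : ∃ r : ℕ, r = 4 * R * w := ⟨_, rfl⟩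
  obtain ⟨v, hv⟩ : ∃ v : Z d, v = Pi.single i (w : ℤ) := ⟨_, rfl⟩
  obtain ⟨v', hv'⟩ : ∃ v' : Z d, v' = Pi.single j (w : ℤ) := ⟨_, rfl⟩
  have ev : |v i| = w := by rw [hv, Pi.single_eq_same, Nat.abs_cast]
  have e1 : v' i = - v j := by
    rw [hv, hv', Pi.single_eq_of_ne hij, Pi.single_eq_of_ne hij.symm, neg_zero]
  have e2 : v' j = v i := by rw [hv, hv', Pi.single_eq_same, Pi.single_eq_same]
  have hsum : K * w + R * w ≤ r := by rw [hK, hr]; ring_nf; exact le_rfl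
  have hnv : nm v ≤ w := by rw [hv]; exact (nm_single i w).le
  have hnv' : nm v' ≤ w := by rw [hv']; exact (nm_single j w).le
  refine crit M p (Bg M Gs v v' K) (Dd M v v' K r)
    (((2 * r + 1) ^ d * (2 * r + 1) ^ d) * 2) ?_ ?_ (Dd_card M v v' K r) ?_ ?_
  · intro s
    rw [coe_Dd]
    exact Bg_dep M Gs v v' w K r (R * w) s hdep hnv hnv' hsum
  · intro s t hst
    rw [← Finset.disjoint_coe, coe_Dd, coe_Dd]
    rw [hK, hr]
    exact In_disj M (Bo_disj ev e1 e2 hw hR hst)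
  · intro s
    refine (Bg_prob M p Gs v v' K s hprob).trans (le_trans (le_of_eq ?_) hq)
    rw [hK]
    push_cast
    ring
  · intro ω hω
    rw [hv, hv'] at hω
    exact gdet M ω i j w K N (H ω) (fun z => ω ∈ Gs z) hij hw (by omega) (h1 ω) (h2 ω)
      (h3 ω) hω

end

end Pool.Agent.Y587.SH
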