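import Pool.Agent.Y990.SH.Stm2

set_option autoImplicit false

open MeasureTheory Set Filter

/-!
Project SH, statement DUST: Markov's inequality for the energy.
-/

namespace Pool.Agent.Y587.SH

open Pool.Agent.W783.PC (pm DepOn Inc)
open Pool.Agent.Y990.CB Pool.Agent.Y990.SH

noncomputable section

variable {d : ℕ}

open scoped Classical in
lemma cl_count (M : Mod d) (ω : M.ι → Bool) (R : Set (Z d)) (z y : Z d) (n : ℕ) :
    ∑ y' ∈ Bf z n, (Cn M R y y').indicator (fun _ => (1 : ℝ)) ω =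
      ((cl M ω R y ∩ Bo z n).ncard : ℝ) := by
  have e : cl M ω R y ∩ Bo z n = ((Bf z n).filter (fun y' => ω ∈ Cn M R y y') : Finset (Z d)) := by
    ext y'
    simp only [Finset.coe_filter, mem_Bf, mem_inter_iff, mem_ofPred_eq]
    exact and_comm
  rw [e, Set.ncard_coe_finset, Finset.card_filter]
  push_cast
  refine Finset.sum_congr rfl fun y' _ => ?_
  by_cases h : ω ∈ Cn M R y y'
  · rw [if_pos h, Set.indicator_of_mem h]
  · rw [if_neg h, Set.indicator_of_notMem h]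

lemma en_sum (M : Mod d) (p : unitInterval) (z : Z d) (n ρ : ℕ) :
    ∑ x ∈ Bf z n, ∑ y ∈ Bf z n, (mu M p).real (Cn M (Bo z ρ) x y) =
      (((2 * n + 1 : ℕ) : ℝ) ^ d) ^ 2 * en M p n ρ := by
  have hv : (0 : ℝ) < (((2 * n + 1 : ℕ) : ℝ) ^ d) ^ 2 := by positivity
  have hsh : ∀ F : Z d → ℝ, ∑ x ∈ Bf z n, F x = ∑ x ∈ Bf (0 : Z d) n, F (x + z) := by
    intro F
    symm
    refine Finset.sum_bij' (fun x _ => x + z) (fun x _ => x - z) ?_ ?_ ?_ ?_ ?_
    · intro x hx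
      rw [mem_Bf] at hx ⊢
      have := (mem_Bo_add (w := z)).2 hx
      rwa [zero_add] at this
    · intro x hx
      rw [mem_Bf] at hx ⊢
      rw [← mem_Bo_add (w := z), zero_add, sub_add_cancel]
      exact hx
    · intro x _
      exact add_sub_cancel_right x z
    · intro x _
      exact sub_add_cancel x z
    · intro x _
      rfl
  unfold en
  rw [mul_div_cancel₀ _ hv.ne', hsh]
  refine Finset.sum_congr rfl fun x _ => ?_
  rw [hsh]
  refine Finset.sum_congr rfl fun y _ => ?_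
  have h1 := Cn_shift M p z (Bo 0 ρ) x y
  rwa [sf_image_Bo, zero_add] at h1

/-- DUST. -/
theorem dust : S_dust := by
  classical
  intro d M p V z n ρ ρ' ε hε h1 h2
  obtain ⟨v, hv⟩ : ∃ v : ℝ, v = ((2 * n + 1 : ℕ) : ℝ) ^ d := ⟨_, rfl⟩
  have hv0 : 0 < v := by rw [hv]; positivity
  have hfin : ∀ (ω : M.ι → Bool) (R : Set (Z d)) (y : Z d), (cl M ω R y ∩ Bo z n).Finite :=
    fun ω R y => (Bo_finite z n).subset inter_subset_right
  obtain ⟨f, hf⟩ : ∃ f : (M.ι → Bool) → ℝ, f = fun ω => ∑ y ∈ Bf z n, ∑ y' ∈ Bf z n,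
      ((Cn M (Bo z ρ') y y').indicator (fun _ => (1 : ℝ)) ω -
        (Cn M (Bo z ρ) y y').indicator (fun _ => (1 : ℝ)) ω) := ⟨_, rfl⟩
  have hf2 : ∀ ω, f ω = ∑ y ∈ Bf z n, (((cl M ω (Bo z ρ') y ∩ Bo z n).ncard : ℝ) -
      ((cl M ω (Bo z ρ) y ∩ Bo z n).ncard : ℝ)) := by
    intro ω
    rw [hf]
    refine Finset.sum_congr rfl fun y _ => ?_
    rw [Finset.sum_sub_distrib, cl_count, cl_count]
  have hterm : ∀ ω y, (0 : ℝ) ≤ ((cl M ω (Bo z ρ') y ∩ Bo z n).ncard : ℝ) -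
      ((cl M ω (Bo z ρ) y ∩ Bo z n).ncard : ℝ) := by
    intro ω y
    rw [sub_nonneg]
    exact_mod_cast Set.ncard_le_ncard
      (inter_subset_inter_left _ (cl_mono (fun _ h => h) (h1.trans h2) y)) (hfin ω _ y)
  have hnn : ∀ ω, 0 ≤ f ω := by
    intro ω
    rw [hf2]
    exact Finset.sum_nonneg fun y _ => hterm ω y
  have hI : ∀ (R : Set (Z d)) (y y' : Z d),
      Integrable (fun ω => (Cn M R y y').indicator (fun _ => (1 : ℝ)) ω) (mu M p) :=
    fun R y y' => (integrable_const (1 : ℝ)).indicator (Cn_meas M R y y')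
  have hI2 : ∀ (y y' : Z d),
      Integrable (fun ω => (Cn M (Bo z ρ') y y').indicator (fun _ => (1 : ℝ)) ω -
        (Cn M (Bo z ρ) y y').indicator (fun _ => (1 : ℝ)) ω) (mu M p) :=
    fun y y' => (hI _ y y').sub (hI _ y y')
  have hI3 : ∀ (y : Z d),
      Integrable (fun ω => ∑ y' ∈ Bf z n, ((Cn M (Bo z ρ') y y').indicator (fun _ => (1 : ℝ)) ω -
        (Cn M (Bo z ρ) y y').indicator (fun _ => (1 : ℝ)) ω)) (mu M p) :=
    fun y => integrable_finsetSum _ fun y' _ => hI2 y y'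
  have hint : Integrable f (mu M p) := by
    rw [hf]
    exact integrable_finsetSum _ fun y _ => hI3 y
  have hE : ∫ ω, f ω ∂(mu M p) = v ^ 2 * (en M p n ρ' - en M p n ρ) := by
    rw [mul_sub, hv, ← en_sum M p z n ρ', ← en_sum M p z n ρ, ← Finset.sum_sub_distrib, hf]
    refine (integral_finsetSum _ fun y _ => hI3 y).trans ?_
    refine Finset.sum_congr rfl fun y _ => ?_
    refine (integral_finsetSum _ fun y' _ => hI2 y y').trans ?_
    rw [← Finset.sum_sub_distrib]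
    refine Finset.sum_congr rfl fun y' _ => ?_
    refine (integral_sub (hI _ y y') (hI _ y y')).trans ?_
    rw [integral_indicator_const _ (Cn_meas M _ _ _),
      integral_indicator_const _ (Cn_meas M _ _ _), smul_eq_mul, smul_eq_mul, mul_one, mul_one]
  have hsub : Du M V z n ρ ε ⊆ {ω | ε ^ 2 * v ^ 2 / 8 ≤ f ω} := by
    rintro ω ⟨x, hx, hbig, hsmall⟩
    rw [← hv] at hbig
    obtain ⟨X, hX⟩ : ∃ X : Finset (Z d), X = (Bf z n).filter (fun y => y ∈ cl M ω V x) := ⟨_, rfl⟩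
    have hXc : (X : Set (Z d)) = cl M ω V x ∩ Bo z n := by
      rw [hX]
      ext y
      simp only [Finset.coe_filter, mem_Bf, mem_inter_iff, mem_ofPred_eq]
      exact and_comm
    have hXn : ((cl M ω V x ∩ Bo z n).ncard : ℝ) = X.card := by
      rw [← hXc, Set.ncard_coe_finset]
    rw [hXn] at hbig
    have hXs : X ⊆ Bf z n := by rw [hX]; exact Finset.filter_subset _ _
    have h3 : ∀ y ∈ X, ε / 4 * v ≤ ((cl M ω (Bo z ρ') y ∩ Bo z n).ncard : ℝ) -
        ((cl M ω (Bo z ρ) y ∩ Bo z n).ncard : ℝ) := by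
      intro y hy
      have hy' : y ∈ cl M ω V x ∩ Bo z n := by rw [← hXc]; exact Finset.mem_coe.2 hy
      have h4 := hsmall y hy'
      rw [← hv] at h4
      have h5 : (X.card : ℝ) ≤ ((cl M ω (Bo z ρ') y ∩ Bo z n).ncard : ℝ) := by
        rw [← hXn, ← cl_eq hy'.1]
        exact_mod_cast Set.ncard_le_ncard
          (inter_subset_inter_left _ (cl_mono (fun _ h => h) h2 y)) (hfin ω _ y)
      linarith
    show ε ^ 2 * v ^ 2 / 8 ≤ f ω
    rw [hf2]
    have h6 : ∑ y ∈ X, ε / 4 * v ≤ ∑ y ∈ X, (((cl M ω (Bo z ρ') y ∩ Bo z n).ncard : ℝ) -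
        ((cl M ω (Bo z ρ) y ∩ Bo z n).ncard : ℝ)) := Finset.sum_le_sum h3
    have h7 := Finset.sum_le_sum_of_subset_of_nonneg hXs
      (f := fun y => ((cl M ω (Bo z ρ') y ∩ Bo z n).ncard : ℝ) -
        ((cl M ω (Bo z ρ) y ∩ Bo z n).ncard : ℝ)) (fun y _ _ => hterm ω y)
    rw [Finset.sum_const, nsmul_eq_mul] at h6
    have h8 : ε / 2 * v * (ε / 4 * v) ≤ X.card * (ε / 4 * v) :=
      mul_le_mul_of_nonneg_right hbig (by positivity)
    have h9 : ε ^ 2 * v ^ 2 / 8 = ε / 2 * v * (ε / 4 * v) := by ring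
    rw [h9]
    exact h8.trans (h6.trans h7)
  have hmk := mul_meas_ge_le_integral_of_nonneg (μ := mu M p) (f := f)
    (Eventually.of_forall hnn) hint (ε ^ 2 * v ^ 2 / 8)
  have h10 : (mu M p).real (Du M V z n ρ ε) ≤ (mu M p).real {ω | ε ^ 2 * v ^ 2 / 8 ≤ f ω} :=
    measureReal_mono hsub (measure_ne_top (mu M p) _)
  rw [hE] at hmk
  have h11 : 0 < ε ^ 2 * v ^ 2 / 8 := by positivity
  have h12 : ε ^ 2 * v ^ 2 / 8 * (mu M p).real (Du M V z n ρ ε) ≤
      v ^ 2 * (en M p n ρ' - en M p n ρ) :=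
    (mul_le_mul_of_nonneg_left h10 h11.le).trans hmk
  have h13 : 8 / ε ^ 2 * (en M p n ρ' - en M p n ρ) =
      v ^ 2 * (en M p n ρ' - en M p n ρ) / (ε ^ 2 * v ^ 2 / 8) := by
    field_simp
  rw [h13, le_div_iff₀ h11, mul_comm]
  exact h12

end

end Pool.Agent.Y587.SH
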